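import Mathlib
import Pool.Agent.H912R3.Eq.Fin2

/-! # MP_4c844b_co: Ehrhart's volume conjecture, for all lattices and with the equality case

Let `L = A ℤ^d` be a lattice and `K` a convex body with centroid `0` whose interior contains no point of
`L` other than `0`. Then `vol K ≤ (d+1)^d / d! * det L`, with equality exactly for the bodies which an affine
map, given in the coordinates of the basis `A` of `L` by an integer matrix of determinant `±1` and an integer
translation vector, sends to the simplex `{y ≥ 0, ∑ y ≤ d+1}`. -/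

set_option autoImplicit false

open MeasureTheory

namespace Pool.Agent.Results.MP_4c844b_co.EhrhartVolume

theorem result :
    ∀ d : ℕ, 1 ≤ d → ∀ A : Matrix (Fin d) (Fin d) ℝ, A.det ≠ 0 →
    ∀ K : Set (Fin d → ℝ), IsCompact K → Convex ℝ K → (interior K).Nonempty →
      (volume.real K)⁻¹ • (∫ x in K, x) = 0 →
      interior K ∩ {x | ∃ z : Fin d → ℤ, x = A.mulVec (fun i => (z i : ℝ))} = {0} →
      volume.real K ≤ ((d : ℝ) + 1) ^ d / (d.factorial : ℝ) * |A.det| ∧
      (volume.real K = ((d : ℝ) + 1) ^ d / (d.factorial : ℝ) * |A.det| ↔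
        ∃ U : Matrix (Fin d) (Fin d) ℤ, ∃ v : Fin d → ℤ, IsUnit U.det ∧
          (fun x : Fin d → ℝ => fun i => ∑ j, (U i j : ℝ) * (A⁻¹.mulVec x) j + (v i : ℝ)) '' K =
            {y : Fin d → ℝ | (∀ i, 0 ≤ y i) ∧ ∑ i, y i ≤ (d : ℝ) + 1}) := by
  intro d hd A hA K hK hKc hne hz0 hL
  have hAu : IsUnit A.det := isUnit_iff_ne_zero.2 hA
  have hinv : (A⁻¹).det = (A.det)⁻¹ := by
    rw [Matrix.det_nonsing_inv, Ring.inverse_eq_inv']
  have hinv0 : (A⁻¹).det ≠ 0 := by rw [hinv]; exact inv_ne_zero hA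
  set L : (Fin d → ℝ) →ₗ[ℝ] (Fin d → ℝ) := Matrix.toLin' A⁻¹ with hLdef
  have hLx : ∀ x, L x = A⁻¹.mulVec x := fun x => rfl
  have hdet : LinearMap.det L = (A⁻¹).det := LinearMap.det_toLin' _
  have hdet0 : LinearMap.det L ≠ 0 := by rw [hdet]; exact hinv0
  set Lc : (Fin d → ℝ) →L[ℝ] (Fin d → ℝ) := LinearMap.toContinuousLinearMap L with hLc
  have hLcx : ∀ x, Lc x = A⁻¹.mulVec x := fun x => rfl
  set e : (Fin d → ℝ) ≃L[ℝ] (Fin d → ℝ) :=
    (LinearEquiv.ofIsUnitDet (f := L) (v := Pi.basisFun ℝ (Fin d)) (v' := Pi.basisFun ℝ (Fin d))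
      (by rw [LinearMap.toMatrix_eq_toMatrix']
          simpa [hLdef, LinearMap.toMatrix'_toLin'] using isUnit_iff_ne_zero.2 hinv0)).toContinuousLinearEquiv
    with he
  have hex : ∀ x, e x = A⁻¹.mulVec x := fun x => rfl
  have hAA : ∀ x, A.mulVec (A⁻¹.mulVec x) = x := by
    intro x
    rw [Matrix.mulVec_mulVec, Matrix.mul_nonsing_inv A hAu, Matrix.one_mulVec]
  have hAA' : ∀ x, A⁻¹.mulVec (A.mulVec x) = x := by
    intro x
    rw [Matrix.mulVec_mulVec, Matrix.nonsing_inv_mul A hAu, Matrix.one_mulVec]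
  set K' : Set (Fin d → ℝ) := e '' K with hK'
  have hK'c : IsCompact K' := hK.image e.continuous
  have hK'v : Convex ℝ K' := hKc.linear_image (e : (Fin d → ℝ) →ₗ[ℝ] (Fin d → ℝ))
  have hint : interior K' = e '' interior K := (e.toHomeomorph.image_interior K).symm
  have hVpos : 0 < volume.real K := by
    have h1 : 0 < volume K := by
      have : 0 < volume (interior K) := isOpen_interior.measure_pos volume hne
      exact this.trans_le (measure_mono interior_subset)
    exact ENNReal.toReal_pos h1.ne' hK.measure_lt_top.ne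
  have h0K : (0 : Fin d → ℝ) ∈ interior K := by
    have : (0 : Fin d → ℝ) ∈ interior K ∩ {x | ∃ z : Fin d → ℤ, x = A.mulVec (fun i => (z i : ℝ))} := by
      rw [hL]; rfl
    exact this.1
  have h0 : (0 : Fin d → ℝ) ∈ interior K' := by
    rw [hint]
    exact ⟨0, h0K, map_zero e⟩
  have hLz : ∀ z : Fin d → ℤ, (fun i => (z i : ℝ)) ∈ interior K' → z = 0 := by
    intro z hz
    rw [hint] at hz
    obtain ⟨x, hx, hxz⟩ := hz
    have h1 : x = A.mulVec (fun i => (z i : ℝ)) := by
      rw [← hxz, hex, hAA]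
    have h2 : x ∈ interior K ∩ {x | ∃ z : Fin d → ℤ, x = A.mulVec (fun i => (z i : ℝ))} :=
      ⟨hx, z, h1⟩
    rw [hL] at h2
    have h3 : x = 0 := h2
    rw [h3, map_zero] at hxz
    funext i
    have := congrFun hxz i
    simp only [Pi.zero_apply] at this ⊢
    exact_mod_cast this.symm
  have hvol : volume.real K' = |A.det|⁻¹ * volume.real K := by
    have h1 : K' = L '' K := rfl
    rw [h1, measureReal_def, Measure.addHaar_image_linearMap, ENNReal.toReal_mul,
      ENNReal.toReal_ofReal (abs_nonneg _), hdet, hinv, abs_inv, measureReal_def]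
  have hI : (∫ x in K, x) = 0 := by
    rcases smul_eq_zero.1 hz0 with h | h
    · exact absurd h (inv_ne_zero hVpos.ne')
    · exact h
  have hz : ∀ i, ∫ x in K', x i = 0 := by
    intro i
    rw [← Pool.Agent.H912R3.Ehr.eval_int hK'c]
    have h1 : ∫ x in K', x = |(Lc : (Fin d → ℝ) →L[ℝ] (Fin d → ℝ)).det| • ∫ x in K, Lc x := by
      have h2 := integral_image_eq_integral_abs_det_fderiv_smul (μ := volume) (s := K)
        (f := fun x => Lc x) (f' := fun _ => Lc) hK.measurableSet
        (fun x _ => Lc.hasFDerivAt.hasFDerivWithinAt) (e.injective.injOn) (fun x => x)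
      have h3 : (fun x => Lc x) '' K = K' := rfl
      rw [h3] at h2
      rw [h2, integral_smul]
    have h4 : ∫ x in K, Lc x = Lc (∫ x in K, x) :=
      Lc.integral_comp_comm (continuous_id.continuousOn.integrableOn_compact hK)
    rw [h1, h4, hI, map_zero, smul_zero]
    rfl
  have hbound := Pool.Agent.H912R3.Ehr.ehrhart_int hd hK'c hK'v hz h0 hLz
  have hApos : 0 < |A.det| := abs_pos.2 hA
  have hiff : volume.real K' = ((d : ℝ) + 1) ^ d / d.factorial ↔
      volume.real K = ((d : ℝ) + 1) ^ d / (d.factorial : ℝ) * |A.det| := by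
    rw [hvol]
    constructor
    · intro h
      rw [← h]; field_simp
    · intro h
      rw [h]; field_simp
  have himg : ∀ (U : Matrix (Fin d) (Fin d) ℤ) (v : Fin d → ℤ),
      (fun x : Fin d → ℝ => fun i => ∑ j, (U i j : ℝ) * (A⁻¹.mulVec x) j + (v i : ℝ)) '' K
        = (fun x : Fin d → ℝ => fun i => ∑ j, (U i j : ℝ) * x j + (v i : ℝ)) '' K' := by
    intro U v
    rw [hK', Set.image_image]
    rfl
  refine ⟨?_, ?_⟩
  · rw [hvol] at hbound
    have := mul_le_mul_of_nonneg_right hbound hApos.le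
    have e1 : |A.det|⁻¹ * volume.real K * |A.det| = volume.real K := by field_simp
    rw [e1] at this
    exact this
  · rw [← hiff]
    constructor
    · intro h
      obtain ⟨U, hU, hKU⟩ := Pool.Agent.H912R3.Ehr.core_eq hd hK'c hK'v hz h0 hLz h
      refine ⟨U, fun _ => 1, hU, ?_⟩
      rw [himg]
      have hTx : {y : Fin d → ℝ | (∀ i, 0 ≤ y i) ∧ ∑ i, y i ≤ (d : ℝ) + 1} =
        Pool.Agent.H912R3.Ehr.Tx d (d + 1) := rfl
      rw [hTx]
      apply Set.Subset.antisymm
      · rintro _ ⟨x, hx, rfl⟩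
        rw [hKU] at hx
        have hx' : (fun i => ∑ j, (U i j : ℝ) * x j + 1) ∈ Pool.Agent.H912R3.Ehr.Tx d (d + 1) := hx
        simpa using hx'
      · intro y hy
        obtain ⟨x, hx⟩ := Pool.Agent.H912R3.Ehr.exists_real_pre hU (fun i => y i - 1)
        have hxy : (fun i => ∑ j, (U i j : ℝ) * x j + 1) = y := by
          funext i
          rw [hx i]; ring
        refine ⟨x, ?_, ?_⟩
        · rw [hKU]
          show (fun i => ∑ j, (U i j : ℝ) * x j + 1) ∈ Pool.Agent.H912R3.Ehr.Tx d (d + 1)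
          rw [hxy]
          exact hy
        · funext i
          have := congrFun hxy i
          simpa using this
    · rintro ⟨U, v, hU, h⟩
      rw [himg] at h
      exact (Pool.Agent.H912R3.Ehr.converse hK'c hLz hU h).2

end Pool.Agent.Results.MP_4c844b_co.EhrhartVolume
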